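import Pool.Agent.H62.HIL.Tg
import Pool.Agent.H62.HIL.Norm

/-!
Board sfh_modules, row DC4: the field of the curve is finite over the field of the two linear forms.
-/

set_option autoImplicit false

namespace Pool.Agent.H56.SFH

open MvPolynomial SC Pool.Agent.H27.LV
open Pool.Agent.H92.SF Pool.Agent.H3.SF
open scoped IntermediateField.algebraAdjoinAdjoin

/-- the ring of integral elements is a finite module -/
theorem fin_gen {k F : Type} [Field k] [CharZero k] [Field F] [Algebra k F] {n : ℕ}
    {u : Fin n → F} (hu : AlgebraicIndependent k u) [FiniteDimensional (kF k u) F] :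
    ∃ s : Finset F, (∀ x ∈ s, Pool.Agent.H3.SF.Itg k u x) ∧ ∀ b : F, Pool.Agent.H3.SF.Itg k u b →
      b ∈ Submodule.span (Algebra.adjoin k (Set.range u)) (s : Set F) := by
  haveI := Pool.Agent.H62.HIL.ufd hu
  have e := hu.aevalEquiv
  haveI : IsNoetherianRing (Algebra.adjoin k (Set.range u)) :=
    isNoetherianRing_of_ringEquiv (MvPolynomial (Fin n) k) e.toRingEquiv
  haveI : CharZero F := charZero_of_injective_algebraMap (algebraMap k F).injective
  haveI : CharZero (kF k u) := charZero_of_injective_algebraMap (algebraMap k (kF k u)).injective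
  have hfin : Module.Finite (Algebra.adjoin k (Set.range u))
      (integralClosure (Algebra.adjoin k (Set.range u)) F) :=
    IsIntegralClosure.finite (Algebra.adjoin k (Set.range u)) (kF k u) F
      (integralClosure (Algebra.adjoin k (Set.range u)) F)
  have h1 : (Subalgebra.toSubmodule
      (integralClosure (Algebra.adjoin k (Set.range u)) F)).FG :=
    Module.Finite.iff_fg.1 hfin
  obtain ⟨s, hs⟩ := h1
  refine ⟨s, fun x hx => ?_, fun b hb => ?_⟩
  · have h2 : x ∈ Submodule.span (Algebra.adjoin k (Set.range u)) (s : Set F) :=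
      Submodule.subset_span hx
    rw [hs] at h2
    exact Pool.Agent.H62.HIL.itg_iff.2 h2
  · rw [hs]
    exact Pool.Agent.H62.HIL.itg_iff.1 hb

theorem pf_DC4 (_h1 : T_SF1) : Pool.Agent.H62.HIL.T_DC4 := by
  intro k F _ _ _ _ _ u dd δ j0 c0 J hS G LL _ _ π hD v hv hint
  haveI : FiniteDimensional (kF k u) F :=
    FiniteDimensional.of_finrank_pos (by rw [hS.rank]; exact hS.pos)
  obtain ⟨s, hs1, hs2⟩ := fin_gen hS.ind
  -- the generators
  set X : Set (Bb k u) := {b : Bb k u | (b : F) ∈ (s : Set F) ∪ Set.range u} with hX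
  have hXf : X.Finite := by
    refine Set.Finite.preimage (Subtype.val_injective.injOn) ?_
    exact s.finite_toSet.union (Set.finite_range u)
  set S : Set LL := π '' X with hSd
  haveI : Finite S := (hXf.image π)
  set M : IntermediateField (kF k v) LL := IntermediateField.adjoin (kF k v) S with hM
  have hMf : FiniteDimensional (kF k v) M := by
    refine IntermediateField.finiteDimensional_adjoin fun x hx => ?_
    obtain ⟨b, -, rfl⟩ := hx
    have h2 : IsIntegral (Algebra.adjoin k (Set.range v)) (π b) :=
      Pool.Agent.H62.HIL.itg_iff.1 (hint b)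
    exact h2.tower_top
  -- all values are in `M`
  set T : Subalgebra k (Bb k u) :=
    Subalgebra.comap π ((M.restrictScalars k).toSubalgebra) with hT
  set T' : Subalgebra k F := T.map (Bb k u).val with hT'
  have hX' : ∀ b ∈ X, π b ∈ M := fun b hb => IntermediateField.subset_adjoin _ _ ⟨b, hb, rfl⟩
  have hu : ∀ j, u j ∈ T' := by
    intro j
    have h2 : Pool.Agent.H3.SF.Itg k u (u j) :=
      Pool.Agent.H62.HIL.itg_iff.2 (Pool.Agent.H62.HIL.itg_var u j)
    exact ⟨⟨u j, h2⟩, hX' _ (Or.inr ⟨j, rfl⟩), rfl⟩
  have hA : Algebra.adjoin k (Set.range u) ≤ T' := by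
    refine Algebra.adjoin_le ?_
    rintro _ ⟨j, rfl⟩
    exact hu j
  have hs' : ∀ x ∈ s, x ∈ T' := fun x hx => ⟨⟨x, hs1 x hx⟩, hX' _ (Or.inl hx), rfl⟩
  have hspan : ∀ b ∈ Submodule.span (Algebra.adjoin k (Set.range u)) (s : Set F), b ∈ T' := by
    intro b hb
    induction hb using Submodule.span_induction with
    | mem x hx => exact hs' x hx
    | zero => exact T'.zero_mem
    | add x y _ _ hx hy => exact T'.add_mem hx hy
    | smul a x _ hx =>
      rw [Algebra.smul_def]
      exact T'.mul_mem (hA a.2) hx
  have hall : ∀ b : Bb k u, π b ∈ M := by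
    intro b
    obtain ⟨b', hb', hbb⟩ := hspan b (hs2 b b.2)
    have h2 : b' = b := Subtype.ext hbb
    rw [← h2]
    exact hb'
  have htop : M = ⊤ := by
    rw [eq_top_iff]
    intro z _
    obtain ⟨b, c, hc, hz⟩ := hD.sur z
    have h2 : z = π b / π c := by
      rw [eq_div_iff hc]
      exact hz
    rw [h2]
    exact div_mem (hall b) (hall c)
  rw [htop] at hMf
  exact Module.Finite.equiv (IntermediateField.topEquiv (F := kF k v) (E := LL)).toLinearEquiv

end Pool.Agent.H56.SFH
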